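import Pool.Agent.TH52.SH.Exact

set_option autoImplicit false

/-!
# Cover-critical graphs have at most `2 τ` vertices (Erdős–Gallai), and `r = 2` for all `n`
-/

namespace Pool.Agent.TH52.SH

open Finset SimpleGraph

variable {V : Type} [Fintype V] [DecidableEq V]

/-- independent set -/
def Ind (F : SimpleGraph V) (S : Finset V) : Prop := ∀ x ∈ S, ∀ y ∈ S, ¬ F.Adj x y

open Classical in
/-- neighbourhood of a vertex -/
noncomputable def nb (F : SimpleGraph V) (x : V) : Finset V := univ.filter fun y => F.Adj x y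

open Classical in
/-- vertices of positive degree -/
noncomputable def supp (F : SimpleGraph V) : Finset V := univ.filter fun x => ∃ y, F.Adj x y

lemma mem_nb {F : SimpleGraph V} {x y : V} : y ∈ nb F x ↔ F.Adj x y := by
  simp [nb]

lemma mem_supp {F : SimpleGraph V} {x : V} : x ∈ supp F ↔ ∃ y, F.Adj x y := by
  simp [supp]

/-- in a critical graph every independent set without isolated vertices has at least as many
neighbours. -/
theorem hall_crit (F : SimpleGraph V) (m : ℕ) (hm : ∀ S : Finset V, Ind F S → S.card < m)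
    (hcrit : ∀ a b : V, F.Adj a b → ∃ S : Finset V, Ind (F.deleteEdges {s(a, b)}) S ∧
      m ≤ S.card) :
    ∀ (k : ℕ) (A : Finset V), A.card = k → Ind F A → A ⊆ supp F →
      A.card ≤ (A.biUnion (nb F)).card := by
  classical
  intro k
  induction k using Nat.strong_induction_on with
  | _ k ih =>
  intro A hAk hA hAs
  by_contra hlt
  push Not at hlt
  have hne : A.Nonempty := by
    rw [← card_pos]
    omega
  obtain ⟨a, ha⟩ := hne
  obtain ⟨b, hab⟩ := mem_supp.1 (hAs ha)
  -- Hall for A \ {a}
  have hHall : ∃ φ : {x // x ∈ A.erase a} → V, Function.Injective φ ∧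
      ∀ x, φ x ∈ nb F x.1 := by
    apply (Finset.all_card_le_biUnion_card_iff_exists_injective
      (fun x : {x // x ∈ A.erase a} => nb F x.1)).1
    intro s
    set A' : Finset V := s.map (Function.Embedding.subtype _) with hA'
    have hsub : A' ⊆ A.erase a := by
      intro x hx
      obtain ⟨y, -, rfl⟩ := Finset.mem_map.1 hx
      exact y.2
    have hc : A'.card = s.card := card_map _
    have h1 : A'.card < k := by
      have := card_le_card hsub
      rw [card_erase_of_mem ha] at this
      have h0 : 0 < A.card := card_pos.2 ⟨a, ha⟩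
      omega
    have hA2 : A' ⊆ A := hsub.trans (erase_subset _ _)
    have h2 := ih A'.card h1 A' rfl (fun x hx y hy => hA x (hA2 hx) y (hA2 hy)) (hA2.trans hAs)
    rw [hc] at h2
    refine h2.trans (card_le_card ?_)
    intro y hy
    obtain ⟨x, hx, hxy⟩ := mem_biUnion.1 hy
    obtain ⟨z, hz, rfl⟩ := Finset.mem_map.1 hx
    exact mem_biUnion.2 ⟨z, hz, hxy⟩
  obtain ⟨φ, hφi, hφ⟩ := hHall
  set N : Finset V := A.biUnion (nb F) with hN
  have himg : univ.image φ = N := by
    apply eq_of_subset_of_card_le
    · intro y hy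
      obtain ⟨x, -, rfl⟩ := mem_image.1 hy
      exact mem_biUnion.2 ⟨x.1, mem_of_mem_erase x.2, hφ x⟩
    · rw [card_image_of_injective _ hφi, card_univ, Fintype.card_coe, card_erase_of_mem ha]
      omega
  obtain ⟨S, hS, hSm⟩ := hcrit a b hab
  have hbN : b ∈ N := mem_biUnion.2 ⟨a, ha, mem_nb.2 hab⟩
  have hbA : b ∉ A := fun h => hA a ha b h hab
  -- adjacency in F - ab
  have hdel : ∀ x y, F.Adj x y → s(x, y) ≠ s(a, b) → (F.deleteEdges {s(a, b)}).Adj x y := by
    intro x y hxy hne
    rw [SimpleGraph.deleteEdges_adj]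
    exact ⟨hxy, by simpa using hne⟩
  have hAN : Disjoint A N := by
    rw [Finset.disjoint_left]
    intro x hx hxN
    obtain ⟨y, hy, hyx⟩ := mem_biUnion.1 hxN
    exact hA y hy x hx (mem_nb.1 hyx)
  have hcardle : (S ∩ N).card ≤ (A \ S).card := by
    have hex : ∀ y ∈ S ∩ N, ∃ x : {x // x ∈ A.erase a}, φ x = y := by
      intro y hy
      have : y ∈ univ.image φ := by
        rw [himg]
        exact (mem_inter.1 hy).2
      obtain ⟨x, -, hx⟩ := mem_image.1 this
      exact ⟨x, hx⟩
    have hsub : S ∩ N ⊆ (univ.filter fun x : {x // x ∈ A.erase a} => x.1 ∉ S).image φ := by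
      intro y hy
      obtain ⟨x, hx⟩ := hex y hy
      refine mem_image.2 ⟨x, mem_filter.2 ⟨mem_univ _, ?_⟩, hx⟩
      intro hxS
      have hadj : F.Adj x.1 y := by
        rw [← hx]
        exact mem_nb.1 (hφ x)
      have hxa : x.1 ≠ a := ne_of_mem_erase x.2
      have hxb : x.1 ≠ b := by
        intro h
        exact hbA (h ▸ mem_of_mem_erase x.2)
      have hne : s(x.1, y) ≠ s(a, b) := by
        intro h
        rcases Sym2.eq_iff.1 h with h | h
        · exact hxa h.1
        · exact hxb h.1
      exact hS x.1 hxS y (mem_inter.1 hy).1 (hdel _ _ hadj hne)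
    calc (S ∩ N).card ≤ ((univ.filter fun x : {x // x ∈ A.erase a} => x.1 ∉ S).image φ).card :=
          card_le_card hsub
      _ ≤ (univ.filter fun x : {x // x ∈ A.erase a} => x.1 ∉ S).card := card_image_le
      _ ≤ (A \ S).card := by
          apply Finset.card_le_card_of_injOn (fun x => x.1)
          · intro x hx
            exact mem_coe.2 (mem_sdiff.2 ⟨mem_of_mem_erase x.2,
              (mem_filter.1 (mem_coe.1 hx)).2⟩)
          · intro x _ y _ hxy
            exact Subtype.ext hxy
  have hS' : Ind F ((S \ N) ∪ A) := by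
    intro x hx y hy hxy
    rcases mem_union.1 hx with hx | hx
    · rcases mem_union.1 hy with hy | hy
      · have hne : s(x, y) ≠ s(a, b) := by
          intro h
          rcases Sym2.eq_iff.1 h with h | h
          · exact (mem_sdiff.1 hy).2 (h.2 ▸ hbN)
          · exact (mem_sdiff.1 hx).2 (h.1 ▸ hbN)
        exact hS x (mem_sdiff.1 hx).1 y (mem_sdiff.1 hy).1 (hdel _ _ hxy hne)
      · exact (mem_sdiff.1 hx).2 (mem_biUnion.2 ⟨y, hy, mem_nb.2 hxy.symm⟩)
    · rcases mem_union.1 hy with hy | hy
      · exact (mem_sdiff.1 hy).2 (mem_biUnion.2 ⟨x, hx, mem_nb.2 hxy⟩)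
      · exact hA x hx y hy hxy
  have h3 := hm _ hS'
  have h4 : ((S \ N) ∪ (A \ S)).card ≤ ((S \ N) ∪ A).card :=
    card_le_card (union_subset_union_right sdiff_subset)
  have h5 : ((S \ N) ∪ (A \ S)).card = (S \ N).card + (A \ S).card := by
    apply card_union_of_disjoint
    rw [Finset.disjoint_left]
    intro x hx hx'
    exact (mem_sdiff.1 hx').2 (mem_sdiff.1 hx).1
  have h6 := card_sdiff_add_card_inter S N
  omega

/-- **Erdős–Gallai.** A graph without independent set of size `|V| - c` has a set of at most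
`2 (c + 1)` vertices without independent set of size (its size) `- c`. -/
theorem exists_small (G : SimpleGraph V) (c : ℕ) (hcV : c < Fintype.card V)
    (hG : ∀ S : Finset V, Ind G S → S.card < Fintype.card V - c) :
    ∃ W : Finset V, W.card ≤ 2 * (c + 1) ∧
      ∀ S : Finset V, S ⊆ W → Ind G S → S.card + c < W.card := by
  classical
  obtain ⟨F, hFG, hF⟩ := exists_minimal_le_of_wellFoundedLT
    (fun F : SimpleGraph V => ∀ S : Finset V, Ind F S → S.card < Fintype.card V - c) G hG
  have hFm := hF.prop
  set m := Fintype.card V - c with hm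
  have hcrit : ∀ a b : V, F.Adj a b → ∃ S : Finset V, Ind (F.deleteEdges {s(a, b)}) S ∧
      m ≤ S.card := by
    intro a b hab
    by_contra hno
    push Not at hno
    have h1 : F ≤ F.deleteEdges {s(a, b)} := hF.le_of_le hno (SimpleGraph.deleteEdges_le _)
    have h2 := h1 hab
    rw [SimpleGraph.deleteEdges_adj] at h2
    exact h2.2 (Set.mem_singleton _)
  refine ⟨supp F, ?_, ?_⟩
  · -- an edge exists
    have hedge : ∃ a b, F.Adj a b := by
      by_contra hno
      push Not at hno
      have := hFm univ (fun x _ y _ => hno x y)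
      rw [card_univ] at this
      omega
    obtain ⟨a, b, hab⟩ := hedge
    obtain ⟨S, hS, hSm⟩ := hcrit a b hab
    -- I = S minus a
    set I := S.erase a with hI
    have hIind : Ind F I := by
      intro x hx y hy hxy
      have hxa : x ≠ a := ne_of_mem_erase hx
      have hya : y ≠ a := ne_of_mem_erase hy
      apply hS x (mem_of_mem_erase hx) y (mem_of_mem_erase hy)
      rw [SimpleGraph.deleteEdges_adj]
      refine ⟨hxy, ?_⟩
      intro h
      rcases Sym2.eq_iff.1 (Set.mem_singleton_iff.1 h) with h | h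
      · exact hxa h.1
      · exact hya h.2
    have hIc : m ≤ I.card + 1 := by
      have h0 : S.card - 1 ≤ I.card := Finset.pred_card_le_card_erase
      omega
    have h1 := hall_crit F m hFm hcrit _ (I ∩ supp F) rfl
      (fun x hx y hy => hIind x (mem_inter.1 hx).1 y (mem_inter.1 hy).1) inter_subset_right
    have h2 : ((I ∩ supp F).biUnion (nb F)).card ≤ (supp F \ I).card := by
      apply card_le_card
      intro y hy
      obtain ⟨x, hx, hxy⟩ := mem_biUnion.1 hy
      have hadj := mem_nb.1 hxy
      refine mem_sdiff.2 ⟨mem_supp.2 ⟨x, hadj.symm⟩, ?_⟩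
      intro hyI
      exact hIind x (mem_inter.1 hx).1 y hyI hadj
    have h3 : (supp F \ I).card ≤ Iᶜ.card := card_le_card (by
      intro x hx
      exact mem_compl.2 (mem_sdiff.1 hx).2)
    rw [card_compl] at h3
    have h4 := card_sdiff_add_card_inter (supp F) I
    rw [inter_comm] at h4
    have h5 : I.card ≤ Fintype.card V := card_le_univ I
    omega
  · intro S hSW hS
    have h1 : Ind F (S ∪ (supp F)ᶜ) := by
      intro x hx y hy hxy
      have hxs : x ∈ supp F := mem_supp.2 ⟨y, hxy⟩
      have hys : y ∈ supp F := mem_supp.2 ⟨x, hxy.symm⟩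
      rcases mem_union.1 hx with hx | hx
      · rcases mem_union.1 hy with hy | hy
        · exact hS x hx y hy (hFG hxy)
        · exact (mem_compl.1 hy) hys
      · exact (mem_compl.1 hx) hxs
    have h2 := hFm _ h1
    have h3 : (S ∪ (supp F)ᶜ).card = S.card + (supp F)ᶜ.card := by
      apply card_union_of_disjoint
      rw [Finset.disjoint_left]
      intro x hx hx'
      exact (mem_compl.1 hx') (hSW hx)
    rw [h3, card_compl] at h2
    have h4 : (supp F).card ≤ Fintype.card V := card_le_univ _
    omega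

theorem lower_graph {n s t : ℕ} (hs : 1 ≤ s) (hst : s ≤ t) (htn : t ≤ n)
    (hreg : 2 * (t - s + 1) ≤ t) : (n - (t - s)).choose 2 ≤ f n 2 s t := by
  classical
  obtain ⟨𝒜, h1, h2, h3⟩ := exists_f (n := n) (r := 2) (s := s) (t := t) hst
  rw [← h3]
  let H : SimpleGraph (Fin n) :=
    { Adj := fun x y => x ≠ y ∧ ({x, y} : Finset (Fin n)) ∉ lowerShadow 2 𝒜
      symm := ⟨fun x y hxy => ⟨hxy.1.symm, by
        rw [Finset.pair_comm]
        exact hxy.2⟩⟩
      loopless := ⟨fun x hx => hx.1 rfl⟩ }
  have hA : ∀ A ∈ 𝒜, Ind H A := by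
    intro A hA x hx y hy hadj
    apply hadj.2
    refine mem_filter.2 ⟨mem_univ _, card_pair hadj.1, A, hA, ?_⟩
    intro z hz
    rcases mem_insert.1 hz with rfl | hz
    · exact hx
    · rw [mem_singleton.1 hz]
      exact hy
  have hex : ∃ I : Finset (Fin n), Ind H I ∧ n - (t - s) ≤ I.card := by
    by_contra hno
    push Not at hno
    obtain ⟨W, hW, hW2⟩ := exists_small H (t - s) (by rw [Fintype.card_fin]; omega)
      (by rw [Fintype.card_fin]; exact hno)
    obtain ⟨T, hWT, hT⟩ := Finset.exists_superset_card_eq (s := W) (n := t) (by omega)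
      (by simpa using htn)
    obtain ⟨A, hAm, hAT⟩ := h2 T hT
    have h4 := hW2 (W ∩ A) inter_subset_left
      (fun x hx y hy => hA A hAm x (mem_inter.1 hx).2 y (mem_inter.1 hy).2)
    have h5 := card_sdiff_add_card_inter W A
    have h6 : (W \ A).card ≤ (T \ A).card := card_le_card (sdiff_subset_sdiff hWT le_rfl)
    rw [Finset.card_sdiff_of_subset hAT, hT, h1 A hAm] at h6
    omega
  obtain ⟨I, hI, hIc⟩ := hex
  calc (n - (t - s)).choose 2 ≤ I.card.choose 2 := Nat.choose_le_choose 2 hIc
    _ = (powersetCard 2 I).card := (card_powersetCard _ _).symm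
    _ ≤ (lowerShadow 2 𝒜).card := by
      apply card_le_card
      intro B hB
      obtain ⟨hBI, hBc⟩ := mem_powersetCard.1 hB
      obtain ⟨x, y, hxy, rfl⟩ := card_eq_two.1 hBc
      by_contra hcon
      exact hI x (hBI (by simp)) y (hBI (by simp)) ⟨hxy, hcon⟩

end Pool.Agent.TH52.SH
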