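import Mathlib

set_option autoImplicit false

/-!
# Lower shadows of covering families: definitions
-/

namespace Pool.Agent.TH52.SH

/-- The lower `r`-shadow of a family `𝒜` of subsets of `Fin n`: the `r`-sets contained in a member
of `𝒜`. -/
def lowerShadow {n : ℕ} (r : ℕ) (𝒜 : Finset (Finset (Fin n))) : Finset (Finset (Fin n)) :=
  (Finset.univ : Finset (Finset (Fin n))).filter fun B => B.card = r ∧ ∃ A ∈ 𝒜, B ⊆ A

/-- `𝒜` is `t`-covering: every `t`-set contains a member of `𝒜`. -/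
def IsCovering {n : ℕ} (t : ℕ) (𝒜 : Finset (Finset (Fin n))) : Prop :=
  ∀ C : Finset (Fin n), C.card = t → ∃ A ∈ 𝒜, A ⊆ C

/-- `f n r s t`: the smallest size of the lower `r`-shadow of a `t`-covering family of `s`-subsets
of `Fin n`. -/
noncomputable def f (n r s t : ℕ) : ℕ :=
  sInf {m : ℕ | ∃ 𝒜 : Finset (Finset (Fin n)),
    (∀ A ∈ 𝒜, A.card = s) ∧ IsCovering t 𝒜 ∧ (lowerShadow r 𝒜).card = m}

theorem f_le {n r s t : ℕ} (𝒜 : Finset (Finset (Fin n))) (h1 : ∀ A ∈ 𝒜, A.card = s)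
    (h2 : IsCovering t 𝒜) : f n r s t ≤ (lowerShadow r 𝒜).card :=
  Nat.sInf_le ⟨𝒜, h1, h2, rfl⟩

theorem exists_f {n r s t : ℕ} (hst : s ≤ t) :
    ∃ 𝒜 : Finset (Finset (Fin n)),
      (∀ A ∈ 𝒜, A.card = s) ∧ IsCovering t 𝒜 ∧ (lowerShadow r 𝒜).card = f n r s t := by
  have hne : {m : ℕ | ∃ 𝒜 : Finset (Finset (Fin n)),
    (∀ A ∈ 𝒜, A.card = s) ∧ IsCovering t 𝒜 ∧ (lowerShadow r 𝒜).card = m}.Nonempty := by
    refine ⟨_, Finset.powersetCard s Finset.univ, ?_, ?_, rfl⟩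
    · intro A hA
      exact (Finset.mem_powersetCard.1 hA).2
    · intro C hC
      obtain ⟨A, hA, hA2⟩ := Finset.exists_subset_card_eq (s := C) (n := s) (by omega)
      exact ⟨A, Finset.mem_powersetCard.2 ⟨Finset.subset_univ _, hA2⟩, hA⟩
  exact Nat.sInf_mem hne

end Pool.Agent.TH52.SH
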