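import Mathlib

set_option autoImplicit false

/-!
# The Erdős matching theorem for large ground sets
-/

namespace Pool.Agent.TH52.SH

open Finset

variable {α : Type*} [DecidableEq α]

/-- `H` contains `m` pairwise disjoint members. -/
def HasM (H : Finset (Finset α)) (m : ℕ) : Prop :=
  ∃ M : Finset (Finset α), M ⊆ H ∧ M.card = m ∧ (∀ a ∈ M, ∀ b ∈ M, a ≠ b → Disjoint a b)

lemma card_pair_le (X : Finset α) (H : Finset (Finset α)) (r : ℕ) (hr : 2 ≤ r)
    (hH : ∀ h ∈ H, h ⊆ X ∧ h.card = r) (u v : α) (huv : u ≠ v) :
    (H.filter fun h => u ∈ h ∧ v ∈ h).card ≤ (X.card - 2).choose (r - 2) := by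
  by_cases hX : u ∈ X ∧ v ∈ X
  · obtain ⟨hu, hv⟩ := hX
    have h1 : (H.filter fun h => u ∈ h ∧ v ∈ h).card ≤
        (((X.erase u).erase v).powersetCard (r - 2)).card := by
      apply Finset.card_le_card_of_injOn (fun h => (h.erase u).erase v)
      · intro h hh
        have hh' := Finset.mem_filter.1 (Finset.mem_coe.1 hh)
        obtain ⟨hhH, hu', hv'⟩ := hh'
        refine Finset.mem_coe.2 (Finset.mem_powersetCard.2 ⟨?_, ?_⟩)
        · exact Finset.erase_subset_erase _ (Finset.erase_subset_erase _ (hH h hhH).1)
        · rw [Finset.card_erase_of_mem (Finset.mem_erase.2 ⟨huv.symm, hv'⟩),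
            Finset.card_erase_of_mem hu', (hH h hhH).2]
          omega
      · intro h hh h' hh' he
        have ha := Finset.mem_filter.1 (Finset.mem_coe.1 hh)
        have hb := Finset.mem_filter.1 (Finset.mem_coe.1 hh')
        have e1 : insert u (insert v ((h.erase u).erase v)) = h := by
          rw [Finset.insert_erase (Finset.mem_erase.2 ⟨huv.symm, ha.2.2⟩),
            Finset.insert_erase ha.2.1]
        have e2 : insert u (insert v ((h'.erase u).erase v)) = h' := by
          rw [Finset.insert_erase (Finset.mem_erase.2 ⟨huv.symm, hb.2.2⟩),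
            Finset.insert_erase hb.2.1]
        have he' : (h.erase u).erase v = (h'.erase u).erase v := he
        rw [← e1, ← e2, he']
    have h2 : ((X.erase u).erase v).card = X.card - 2 := by
      rw [Finset.card_erase_of_mem (Finset.mem_erase.2 ⟨huv.symm, hv⟩),
        Finset.card_erase_of_mem hu]
      omega
    rwa [Finset.card_powersetCard, h2] at h1
  · have : (H.filter fun h => u ∈ h ∧ v ∈ h) = ∅ := by
      apply Finset.filter_eq_empty_iff.2
      intro h hh hc
      exact hX ⟨(hH h hh).1 hc.1, (hH h hh).1 hc.2⟩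
    rw [this]
    simp

lemma card_deg_le (X : Finset α) (H : Finset (Finset α)) (r : ℕ)
    (hH : ∀ h ∈ H, h ⊆ X ∧ h.card = r) (v : α) (hv : v ∈ X) :
    (H.filter fun h => v ∈ h).card ≤ (X.card - 1).choose (r - 1) := by
  have h1 : (H.filter fun h => v ∈ h).card ≤ ((X.erase v).powersetCard (r - 1)).card := by
    apply Finset.card_le_card_of_injOn (fun h => h.erase v)
    · intro h hh
      have hh' := Finset.mem_filter.1 (Finset.mem_coe.1 hh)
      refine Finset.mem_coe.2 (Finset.mem_powersetCard.2 ⟨?_, ?_⟩)
      · exact Finset.erase_subset_erase _ (hH h hh'.1).1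
      · rw [Finset.card_erase_of_mem hh'.2, (hH h hh'.1).2]
    · intro h hh h' hh' he
      have ha := Finset.mem_filter.1 (Finset.mem_coe.1 hh)
      have hb := Finset.mem_filter.1 (Finset.mem_coe.1 hh')
      have he' : h.erase v = h'.erase v := he
      rw [← Finset.insert_erase ha.2, ← Finset.insert_erase hb.2, he']
  rwa [Finset.card_powersetCard, Finset.card_erase_of_mem hv] at h1

lemma card_biUnion_M (H M : Finset (Finset α)) (r : ℕ) (hH : ∀ h ∈ H, h.card = r)
    (hM : M ⊆ H) : (M.biUnion id).card ≤ M.card * r := by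
  apply Finset.card_biUnion_le_card_mul
  intro h hh
  exact (hH h (hM hh)).le

/-- If every member of `H'` meets `U`, the size of `H'` is at most `|U|` times the maximal
degree. -/
lemma card_le_of_meets (H' : Finset (Finset α)) (U : Finset α) (D : ℕ)
    (hm : ∀ h ∈ H', ∃ u ∈ U, u ∈ h) (hd : ∀ u ∈ U, (H'.filter fun h => u ∈ h).card ≤ D) :
    H'.card ≤ U.card * D := by
  have h1 : H' ⊆ U.biUnion fun u => H'.filter fun h => u ∈ h := by
    intro h hh
    obtain ⟨u, hu, huh⟩ := hm h hh
    exact Finset.mem_biUnion.2 ⟨u, hu, Finset.mem_filter.2 ⟨hh, huh⟩⟩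
  exact (Finset.card_le_card h1).trans (Finset.card_biUnion_le_card_mul _ _ _ hd)

lemma exists_max (H : Finset (Finset α)) (s : ℕ) (hs : ¬ HasM H (s + 1)) :
    ∃ M : Finset (Finset α), M ⊆ H ∧ M.card ≤ s ∧
      (∀ a ∈ M, ∀ b ∈ M, a ≠ b → Disjoint a b) ∧
      ∀ h ∈ H, h.Nonempty → ¬ Disjoint h (M.biUnion id) := by
  -- the set of matchings inside H
  let 𝓜 : Finset (Finset (Finset α)) := H.powerset.filter
    fun M => ∀ a ∈ M, ∀ b ∈ M, a ≠ b → Disjoint a b
  have hne : 𝓜.Nonempty := ⟨∅, by simp [𝓜]⟩
  obtain ⟨M, hM, hmax⟩ := Finset.exists_max_image 𝓜 Finset.card hne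
  have hM' := Finset.mem_filter.1 hM
  have hMH : M ⊆ H := Finset.mem_powerset.1 hM'.1
  refine ⟨M, hMH, ?_, hM'.2, ?_⟩
  · by_contra hc
    obtain ⟨M', hM', hc'⟩ := Finset.exists_subset_card_eq (s := M) (n := s + 1) (by omega)
    exact hs ⟨M', hM'.trans hMH, hc', fun a ha b hb hab =>
      (Finset.mem_filter.1 hM).2 a (hM' ha) b (hM' hb) hab⟩
  · intro h hh hhne hd
    have hnot : h ∉ M := by
      intro hin
      obtain ⟨x, hx⟩ := hhne
      exact (Finset.disjoint_left.1 hd hx) (Finset.mem_biUnion.2 ⟨h, hin, hx⟩)
    have hin : insert h M ∈ 𝓜 := by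
      refine Finset.mem_filter.2 ⟨Finset.mem_powerset.2 (Finset.insert_subset hh hMH), ?_⟩
      intro a ha b hb hab
      rcases Finset.mem_insert.1 ha with rfl | ha'
      · rcases Finset.mem_insert.1 hb with rfl | hb'
        · exact absurd rfl hab
        · exact Finset.disjoint_of_subset_right
            (fun x hx => Finset.mem_biUnion.2 ⟨b, hb', hx⟩) hd
      · rcases Finset.mem_insert.1 hb with rfl | hb'
        · exact (Finset.disjoint_of_subset_right
            (fun x hx => Finset.mem_biUnion.2 ⟨a, ha', hx⟩) hd).symm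
        · exact hM'.2 a ha' b hb' hab
    have := hmax _ hin
    rw [Finset.card_insert_of_notMem hnot] at this
    omega

/-- The Erdős matching theorem for large ground sets. -/
theorem erdos_matching (r : ℕ) (hr : 2 ≤ r) : ∀ (s : ℕ) (X : Finset α)
    (H : Finset (Finset α)), (∀ h ∈ H, h ⊆ X ∧ h.card = r) → r ^ 3 * s ^ 2 + s ≤ X.card →
    ¬ HasM H (s + 1) → H.card + (X.card - s).choose r ≤ X.card.choose r := by
  intro s
  induction s with
  | zero =>
    intro X H hH hX hM
    have : H = ∅ := by
      by_contra hne
      obtain ⟨h, hh⟩ := Finset.nonempty_iff_ne_empty.2 hne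
      exact hM ⟨{h}, by simpa using hh, by simp, by
        intro a ha b hb hab
        rw [Finset.mem_singleton] at ha hb
        exact absurd (ha.trans hb.symm) hab⟩
    simp [this]
  | succ s ih =>
    intro X H hH hX hM
    set N := X.card with hN
    have hNbig : r ^ 3 * (s + 1) ^ 2 + 1 ≤ N := by
      have : r ^ 3 * (s + 1) ^ 2 + (s + 1) ≤ N := hX
      omega
    have hN1 : (N - 1 + 1) = N := by omega
    by_cases hA : ∃ v ∈ X, r * (s + 1) * (N - 2).choose (r - 2) <
        (H.filter fun h => v ∈ h).card
    · obtain ⟨v, hv, hdeg⟩ := hA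
      have hH' : ∀ h ∈ H.filter (fun h => v ∉ h), h ⊆ X.erase v ∧ h.card = r := by
        intro h hh
        have hh' := Finset.mem_filter.1 hh
        refine ⟨?_, (hH h hh'.1).2⟩
        intro x hx
        refine Finset.mem_erase.2 ⟨?_, (hH h hh'.1).1 hx⟩
        rintro rfl
        exact hh'.2 hx
      have hM' : ¬ HasM (H.filter (fun h => v ∉ h)) (s + 1) := by
        rintro ⟨M, hMs, hMc, hMd⟩
        apply hM
        have hMH : M ⊆ H := hMs.trans (Finset.filter_subset _ _)
        -- an edge through v avoiding the union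
        have hex : ∃ h ∈ H, v ∈ h ∧ Disjoint h (M.biUnion id) := by
          by_contra hno
          push Not at hno
          have hle := card_le_of_meets (H.filter fun h => v ∈ h) (M.biUnion id)
            ((N - 2).choose (r - 2)) ?_ ?_
          · have hU := card_biUnion_M H M r (fun h hh => (hH h hh).2) hMH
            rw [hMc] at hU
            have : (M.biUnion id).card * (N - 2).choose (r - 2) ≤
                (s + 1) * r * (N - 2).choose (r - 2) := Nat.mul_le_mul_right _ hU
            have e : (s + 1) * r = r * (s + 1) := Nat.mul_comm _ _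
            rw [e] at this
            omega
          · intro h hh
            have hh' := Finset.mem_filter.1 hh
            have := hno h hh'.1 hh'.2
            rw [Finset.not_disjoint_iff] at this
            obtain ⟨u, hu1, hu2⟩ := this
            exact ⟨u, hu2, hu1⟩
          · intro u hu
            obtain ⟨m, hm, hum⟩ := Finset.mem_biUnion.1 hu
            have hvm : v ∉ m := (Finset.mem_filter.1 (hMs hm)).2
            have huv : v ≠ u := by
              rintro rfl
              exact hvm hum
            rw [Finset.filter_filter]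
            exact card_pair_le X H r hr hH v u huv
        obtain ⟨h, hh, hvh, hd⟩ := hex
        refine ⟨insert h M, Finset.insert_subset hh hMH, ?_, ?_⟩
        · rw [Finset.card_insert_of_notMem, hMc]
          intro hin
          exact (Finset.mem_filter.1 (hMs hin)).2 hvh
        · intro a ha b hb hab
          rcases Finset.mem_insert.1 ha with rfl | ha'
          · rcases Finset.mem_insert.1 hb with rfl | hb'
            · exact absurd rfl hab
            · exact Finset.disjoint_of_subset_right
                (fun x hx => Finset.mem_biUnion.2 ⟨b, hb', hx⟩) hd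
          · rcases Finset.mem_insert.1 hb with rfl | hb'
            · exact (Finset.disjoint_of_subset_right
                (fun x hx => Finset.mem_biUnion.2 ⟨a, ha', hx⟩) hd).symm
            · exact hMd a ha' b hb' hab
      have hXc : (X.erase v).card = N - 1 := by
        rw [Finset.card_erase_of_mem hv]
      have hbound : r ^ 3 * s ^ 2 + s ≤ (X.erase v).card := by
        rw [hXc]
        have h1 : r ^ 3 * s ^ 2 ≤ r ^ 3 * (s + 1) ^ 2 :=
          Nat.mul_le_mul_left _ (Nat.pow_le_pow_left (by omega) 2)
        have h2 : r ^ 3 * (s + 1) ^ 2 + (s + 1) ≤ N := hX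
        omega
      have h3 := ih (X.erase v) (H.filter (fun h => v ∉ h)) hH' hbound hM'
      rw [hXc] at h3
      have h4 := card_deg_le X H r hH v hv
      rw [← hN] at h4
      have h5 : (H.filter fun h => v ∈ h).card + (H.filter fun h => v ∉ h).card = H.card :=
        Finset.card_filter_add_card_filter_not _
      have h6 : N.choose r = (N - 1).choose (r - 1) + (N - 1).choose r := by
        obtain ⟨r', rfl⟩ : ∃ r', r = r' + 1 := ⟨r - 1, by omega⟩
        obtain ⟨N', hN'⟩ : ∃ N', N = N' + 1 := ⟨N - 1, by omega⟩
        rw [hN', Nat.choose_succ_succ]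
        simp
      have h7 : N - (s + 1) = N - 1 - s := by omega
      rw [h7, h6]
      omega
    · push Not at hA
      obtain ⟨M, hMH, hMc, -, hMmeet⟩ := exists_max H (s + 1) hM
      have hle := card_le_of_meets H (M.biUnion id) (r * (s + 1) * (N - 2).choose (r - 2)) ?_ ?_
      · have hU := card_biUnion_M H M r (fun h hh => (hH h hh).2) hMH
        have hU' : (M.biUnion id).card ≤ (s + 1) * r :=
          hU.trans (Nat.mul_le_mul_right _ hMc)
        have h1 : H.card ≤ (s + 1) * r * (r * (s + 1) * (N - 2).choose (r - 2)) :=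
          hle.trans (Nat.mul_le_mul_right _ hU')
        -- (r-1) * C(N-1, r-1) = (N-1) * C(N-2, r-2)
        have h2 : (r - 1) * (N - 1).choose (r - 1) = (N - 1) * (N - 2).choose (r - 2) := by
          obtain ⟨r', rfl⟩ : ∃ r', r = r' + 2 := ⟨r - 2, by omega⟩
          obtain ⟨N', hN'⟩ : ∃ N', N = N' + 2 := ⟨N - 2, by
            have : 1 ≤ (r' + 2) ^ 3 * (s + 1) ^ 2 := Nat.one_le_iff_ne_zero.2 (by positivity)
            omega⟩
          rw [hN']
          have := Nat.add_one_mul_choose_eq N' r'
          show (r' + 2 - 1) * (N' + 2 - 1).choose (r' + 2 - 1) =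
            (N' + 2 - 1) * (N' + 2 - 2).choose (r' + 2 - 2)
          have e1 : r' + 2 - 1 = r' + 1 := by omega
          have e2 : N' + 2 - 1 = N' + 1 := by omega
          have e3 : N' + 2 - 2 = N' := by omega
          have e4 : r' + 2 - 2 = r' := by omega
          rw [e1, e2, e3, e4]
          linarith
        have h3 : (s + 1) * r * (r * (s + 1) * (N - 2).choose (r - 2)) ≤
            (N - 1).choose (r - 1) := by
          have h4 : (r - 1) * ((s + 1) * r * (r * (s + 1) * (N - 2).choose (r - 2))) ≤
              (r - 1) * (N - 1).choose (r - 1) := by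
            rw [h2]
            have h5 : (r - 1) * ((s + 1) * r * (r * (s + 1))) ≤ N - 1 := by
              have h6 : (r - 1) * ((s + 1) * r * (r * (s + 1))) ≤
                  r * ((s + 1) * r * (r * (s + 1))) := Nat.mul_le_mul_right _ (by omega)
              have h7 : r * ((s + 1) * r * (r * (s + 1))) = r ^ 3 * (s + 1) ^ 2 := by ring
              omega
            calc (r - 1) * ((s + 1) * r * (r * (s + 1) * (N - 2).choose (r - 2)))
                = (r - 1) * ((s + 1) * r * (r * (s + 1))) * (N - 2).choose (r - 2) := by ring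
              _ ≤ (N - 1) * (N - 2).choose (r - 2) := Nat.mul_le_mul_right _ h5
          exact Nat.le_of_mul_le_mul_left h4 (by omega)
        have h6 : N.choose r = (N - 1).choose (r - 1) + (N - 1).choose r := by
          obtain ⟨r', rfl⟩ : ∃ r', r = r' + 1 := ⟨r - 1, by omega⟩
          obtain ⟨N', hN'⟩ : ∃ N', N = N' + 1 := ⟨N - 1, by omega⟩
          rw [hN', Nat.choose_succ_succ]
          simp
        have h8 : (N - (s + 1)).choose r ≤ (N - 1).choose r :=
          Nat.choose_le_choose r (by omega)
        omega
      · intro h hh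
        have hne : h.Nonempty := by
          rw [← Finset.card_pos, (hH h hh).2]
          omega
        have := hMmeet h hh hne
        rw [Finset.not_disjoint_iff] at this
        obtain ⟨u, hu1, hu2⟩ := this
        exact ⟨u, hu2, hu1⟩
      · intro u hu
        obtain ⟨m, hm, hum⟩ := Finset.mem_biUnion.1 hu
        exact hA u ((hH m (hMH hm)).1 hum)

end Pool.Agent.TH52.SH
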