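import Pool.Agent.TH52.SH.Exact

set_option autoImplicit false

/-!
# Lower shadows of covering families: `t = s + 1`, all `n`
-/

namespace Pool.Agent.TH52.SH

open Finset

theorem lower_ekr {n r s : ℕ} (hr : 1 ≤ r) (hs : 1 ≤ s) (hn : s + 1 < n)
    (hreg : r * 2 ≤ s + 1) : (n - 1).choose r ≤ f n r s (s + 1) := by
  classical
  obtain ⟨𝒜, h1, h2, h3⟩ := exists_f (n := n) (r := r) (s := s) (t := s + 1) (by omega)
  rw [← h3]
  have h4 := no_matching (r := r) hs (Nat.le_succ s) (by omega) (by
    have : s + 1 - s + 1 = 2 := by omega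
    rw [this]
    exact hreg) 𝒜 h1 h2
  have h4' : s + 1 - s + 1 = 2 := by omega
  rw [h4'] at h4
  set H := powersetCard r (univ : Finset (Fin n)) \ lowerShadow r 𝒜 with hH
  have hcard : ∀ h ∈ H, h.card = r := fun h hh => (mem_powersetCard.1 (mem_sdiff.1 hh).1).2
  have hint : (H : Set (Finset (Fin n))).Intersecting := by
    intro a ha b hb hab
    have ha' : a ∈ H := mem_coe.1 ha
    have hb' : b ∈ H := mem_coe.1 hb
    have hne : a ≠ b := by
      rintro rfl
      have := Finset.disjoint_self_iff_empty a |>.1 hab
      have h5 := hcard a ha'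
      rw [this, card_empty] at h5
      omega
    apply h4
    refine ⟨{a, b}, ?_, card_pair hne, ?_⟩
    · intro x hx
      rcases mem_insert.1 hx with rfl | hx
      · exact ha'
      · rw [mem_singleton.1 hx]
        exact hb'
    · intro x hx y hy hxy
      rcases mem_insert.1 hx with rfl | hx
      · rcases mem_insert.1 hy with rfl | hy
        · exact absurd rfl hxy
        · rw [mem_singleton.1 hy]
          exact hab
      · rw [mem_singleton.1 hx] at hxy ⊢
        rcases mem_insert.1 hy with rfl | hy
        · exact hab.symm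
        · rw [mem_singleton.1 hy] at hxy
          exact absurd rfl hxy
  have hsized : (H : Set (Finset (Fin n))).Sized r := by
    intro a ha
    exact hcard a (mem_coe.1 ha)
  have h5 := Finset.erdos_ko_rado hint hsized (by omega)
  have h6 := card_compl_shadow (r := r) 𝒜
  have h7 : n.choose r = (n - 1).choose (r - 1) + (n - 1).choose r := by
    obtain ⟨r', rfl⟩ : ∃ r', r = r' + 1 := ⟨r - 1, by omega⟩
    obtain ⟨N', hN'⟩ : ∃ N', n = N' + 1 := ⟨n - 1, by omega⟩
    subst hN'
    rw [Nat.choose_succ_succ]
    simp
  rw [← hH] at h6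
  omega

end Pool.Agent.TH52.SH
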