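import Pool.Agent.TH52.SH.Defs
import Pool.Agent.TH52.SH.EM

set_option autoImplicit false

/-!
# Lower shadows of covering families: the exact value when `r (t - s + 1) ≤ t`
-/

namespace Pool.Agent.TH52.SH

open Finset

theorem shadow_subset {n r : ℕ} (𝒜 : Finset (Finset (Fin n))) :
    lowerShadow r 𝒜 ⊆ powersetCard r (univ : Finset (Fin n)) := by
  intro B hB
  exact mem_powersetCard.2 ⟨subset_univ _, (mem_filter.1 hB).2.1⟩

theorem card_compl_shadow {n r : ℕ} (𝒜 : Finset (Finset (Fin n))) :
    (powersetCard r (univ : Finset (Fin n)) \ lowerShadow r 𝒜).card + (lowerShadow r 𝒜).card =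
      n.choose r := by
  rw [card_sdiff_add_card_eq_card (shadow_subset 𝒜), card_powersetCard, card_univ,
    Fintype.card_fin]

/-- there are no `t - s + 1` disjoint `r`-sets outside the shadow. -/
theorem no_matching {n r s t : ℕ} (hs : 1 ≤ s) (hst : s ≤ t) (htn : t ≤ n) (hreg : r * (t - s + 1) ≤ t)
    (𝒜 : Finset (Finset (Fin n))) (h1 : ∀ A ∈ 𝒜, A.card = s) (h2 : IsCovering t 𝒜) :
    ¬ HasM (powersetCard r (univ : Finset (Fin n)) \ lowerShadow r 𝒜) (t - s + 1) := by
  rintro ⟨M, hM, hMc, hMd⟩
  have hr : ∀ h ∈ M, h.card = r := fun h hh =>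
    (mem_powersetCard.1 (mem_sdiff.1 (hM hh)).1).2
  have hU : (M.biUnion id).card ≤ t := by
    have h3 := card_biUnion_M M M r hr (Subset.refl _)
    rw [hMc] at h3
    have h4 : (t - s + 1) * r = r * (t - s + 1) := Nat.mul_comm _ _
    omega
  obtain ⟨T, hUT, hT⟩ := Finset.exists_superset_card_eq hU (by simpa using htn)
  obtain ⟨A, hA, hAT⟩ := h2 T hT
  have hx : ∀ h ∈ M, ∃ x ∈ h, x ∉ A := by
    intro h hh
    by_contra hno
    push Not at hno
    exact (mem_sdiff.1 (hM hh)).2 (mem_filter.2 ⟨mem_univ _, hr h hh, A, hA, hno⟩)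
  haveI : Nonempty (Fin n) := ⟨⟨0, by omega⟩⟩
  choose! g hg1 hg2 using hx
  have h5 : M.card ≤ (T \ A).card := by
    apply Finset.card_le_card_of_injOn g
    · intro h hh
      exact mem_coe.2 (mem_sdiff.2 ⟨hUT (mem_biUnion.2 ⟨h, hh, hg1 h hh⟩), hg2 h hh⟩)
    · intro a ha b hb hab
      by_contra hne
      exact (Finset.disjoint_left.1 (hMd a ha b hb hne) (hg1 a ha)) (by rw [hab]; exact hg1 b hb)
  rw [hMc, Finset.card_sdiff_of_subset hAT, hT, h1 A hA] at h5
  omega

theorem lower_two {n r s t : ℕ} (hr : 2 ≤ r) (hs : 1 ≤ s) (hst : s < t) (htn : t < n)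
    (hreg : r * (t - s + 1) ≤ t) (hn : r ^ 3 * (t - s) ^ 2 + (t - s) ≤ n) :
    (n - (t - s)).choose r ≤ f n r s t := by
  obtain ⟨𝒜, h1, h2, h3⟩ := exists_f (n := n) (r := r) (s := s) (t := t) hst.le
  rw [← h3]
  have h4 := erdos_matching r hr (t - s) (univ : Finset (Fin n))
    (powersetCard r (univ : Finset (Fin n)) \ lowerShadow r 𝒜)
    (fun h hh => mem_powersetCard.1 (mem_sdiff.1 hh).1) (by simpa using hn)
    (no_matching hs hst.le htn.le hreg 𝒜 h1 h2)
  rw [card_univ, Fintype.card_fin] at h4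
  have h5 := card_compl_shadow (r := r) 𝒜
  omega

theorem lower_one {n s t : ℕ} (hs : 1 ≤ s) (hst : s < t) (htn : t < n) :
    n - (t - s) ≤ f n 1 s t := by
  obtain ⟨𝒜, h1, h2, h3⟩ := exists_f (n := n) (r := 1) (s := s) (t := t) hst.le
  rw [← h3]
  have h4 := no_matching (r := 1) hs hst.le htn.le (by omega) 𝒜 h1 h2
  have h5 := card_compl_shadow (r := 1) 𝒜
  rw [Nat.choose_one_right] at h5
  have h6 : (powersetCard 1 (univ : Finset (Fin n)) \ lowerShadow 1 𝒜).card ≤ t - s := by
    by_contra hc
    obtain ⟨M, hM, hMc⟩ := Finset.exists_subset_card_eq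
      (s := powersetCard 1 (univ : Finset (Fin n)) \ lowerShadow 1 𝒜) (n := t - s + 1) (by omega)
    apply h4
    refine ⟨M, hM, hMc, ?_⟩
    intro a ha b hb hab
    obtain ⟨x, rfl⟩ := card_eq_one.1 (mem_powersetCard.1 (mem_sdiff.1 (hM ha)).1).2
    obtain ⟨y, rfl⟩ := card_eq_one.1 (mem_powersetCard.1 (mem_sdiff.1 (hM hb)).1).2
    rw [Finset.disjoint_singleton]
    rintro rfl
    exact hab rfl
  omega

theorem upper {n r s t : ℕ} (hst : s ≤ t) (htn : t ≤ n) :
    f n r s t ≤ (n - (t - s)).choose r := by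
  set Y : Finset (Fin n) := univ.filter fun x => x.val < n - (t - s) with hY
  have hYc : Y.card = n - (t - s) := by
    rw [hY, Fin.card_filter_val_lt]
    omega
  refine (f_le (powersetCard s Y) (fun A hA => (mem_powersetCard.1 hA).2) ?_).trans ?_
  · intro C hC
    have h1 : s ≤ (C ∩ Y).card := by
      have h2 : (C \ Y).card ≤ Yᶜ.card := card_le_card (by
        intro x hx
        exact mem_compl.2 (mem_sdiff.1 hx).2)
      rw [card_compl, Fintype.card_fin, hYc] at h2
      have h3 := card_sdiff_add_card_inter C Y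
      omega
    obtain ⟨A, hA, hAc⟩ := Finset.exists_subset_card_eq h1
    exact ⟨A, mem_powersetCard.2 ⟨hA.trans inter_subset_right, hAc⟩, hA.trans inter_subset_left⟩
  · rw [← hYc, ← card_powersetCard]
    apply card_le_card
    intro B hB
    obtain ⟨-, hBc, A, hA, hBA⟩ := mem_filter.1 hB
    exact mem_powersetCard.2 ⟨hBA.trans (mem_powersetCard.1 hA).1, hBc⟩

/-- the exact value in the regime `r (t - s + 1) ≤ t`. -/
theorem exact {n r s t : ℕ} (hr : 1 ≤ r) (hrs : r < s) (hst : s < t) (htn : t < n)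
    (hreg : r * (t - s + 1) ≤ t) (hn : r = 1 ∨ r ^ 3 * (t - s) ^ 2 + (t - s) ≤ n) :
    f n r s t = (n - (t - s)).choose r := by
  apply le_antisymm (upper hst.le htn.le)
  rcases Nat.lt_or_ge r 2 with h | h
  · have : r = 1 := by omega
    subst this
    rw [Nat.choose_one_right]
    exact lower_one (by omega) hst htn
  · rcases hn with h1 | h1
    · omega
    · exact lower_two h (by omega) hst htn hreg h1

/-- outside this regime the shadow can miss a positive proportion of the `r`-sets. -/
theorem gap {n r s t : ℕ} (hr : 1 ≤ r) (hst : s < t)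
    (hreg : t < r * (t - s + 1)) :
    f n r s t + (n / r) ^ r ≤ n.choose r := by
  classical
  set 𝒜 : Finset (Finset (Fin n)) := (powersetCard s (univ : Finset (Fin n))).filter
    fun A => ∃ j < r, ∀ x ∈ A, x.val % r ≠ j with h𝒜
  have hcov : IsCovering t 𝒜 := by
    intro T hT
    have hsum : ∑ j ∈ range r, (T.filter fun x => x.val % r = j).card = T.card := by
      rw [← Finset.card_eq_sum_card_fiberwise (f := fun x : Fin n => x.val % r) (s := T)
        (t := range r)]
      intro x hx
      exact mem_coe.2 (mem_range.2 (Nat.mod_lt _ (by omega)))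
    have hex : ∃ j ∈ range r, (T.filter fun x => x.val % r = j).card < t - s + 1 := by
      by_contra hno
      push Not at hno
      have h1 : ∑ j ∈ range r, (t - s + 1) ≤
          ∑ j ∈ range r, (T.filter fun x => x.val % r = j).card := sum_le_sum hno
      rw [hsum, sum_const, card_range, smul_eq_mul, hT] at h1
      omega
    obtain ⟨j, hj, hlt⟩ := hex
    have h2 : (T.filter fun x => x.val % r = j).card +
        (T.filter fun x => ¬ x.val % r = j).card = T.card :=
      Finset.card_filter_add_card_filter_not _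
    obtain ⟨A, hA, hAc⟩ := Finset.exists_subset_card_eq
      (s := T.filter fun x => ¬ x.val % r = j) (n := s) (by omega)
    refine ⟨A, mem_filter.2 ⟨mem_powersetCard.2 ⟨subset_univ _, hAc⟩, j, mem_range.1 hj, ?_⟩,
      hA.trans (filter_subset _ _)⟩
    intro x hx
    exact (mem_filter.1 (hA hx)).2
  have hle := f_le (n := n) (r := r) (s := s) (t := t) 𝒜
    (fun A hA => (mem_powersetCard.1 (mem_filter.1 hA).1).2) hcov
  have hc := card_compl_shadow (r := r) 𝒜
  -- the transversals
  have hlt : ∀ (g : Fin r → Fin (n / r)) (j : Fin r), r * (g j).val + j.val < n := by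
    intro g j
    have h1 : (g j).val + 1 ≤ n / r := (g j).isLt
    have h2 : r * ((g j).val + 1) ≤ r * (n / r) := Nat.mul_le_mul_left _ h1
    have h3 : r * (n / r) ≤ n := Nat.mul_div_le n r
    have h4 := j.isLt
    rw [Nat.mul_add, Nat.mul_one] at h2
    omega
  let B : (Fin r → Fin (n / r)) → Finset (Fin n) := fun g =>
    univ.image fun j : Fin r => (⟨r * (g j).val + j.val, hlt g j⟩ : Fin n)
  have hmod : ∀ (g : Fin r → Fin (n / r)) (j : Fin r), (r * (g j).val + j.val) % r = j.val := by
    intro g j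
    rw [Nat.mul_add_mod, Nat.mod_eq_of_lt j.isLt]
  have hBcard : ∀ g, (B g).card = r := by
    intro g
    rw [card_image_of_injective, card_univ, Fintype.card_fin]
    intro j j' hjj
    have := congrArg (fun x : Fin n => x.val % r) hjj
    simp only [hmod] at this
    exact Fin.ext this
  have hBinj : Function.Injective B := by
    intro g g' hgg
    funext j
    have h1 : (⟨r * (g j).val + j.val, hlt g j⟩ : Fin n) ∈ B g' := by
      rw [← hgg]
      exact mem_image_of_mem _ (mem_univ j)
    obtain ⟨j', -, hj'⟩ := mem_image.1 h1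
    have h2 := congrArg (fun x : Fin n => x.val % r) hj'
    simp only [hmod] at h2
    have h3 : j' = j := Fin.ext h2
    subst h3
    have h4 := congrArg (fun x : Fin n => x.val) hj'
    simp only at h4
    have h5 : r * (g' j').val = r * (g j').val := by omega
    exact Fin.ext (Nat.eq_of_mul_eq_mul_left (by omega) h5).symm
  have hBmem : ∀ g, B g ∈ powersetCard r (univ : Finset (Fin n)) \ lowerShadow r 𝒜 := by
    intro g
    refine mem_sdiff.2 ⟨mem_powersetCard.2 ⟨subset_univ _, hBcard g⟩, ?_⟩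
    intro hs
    obtain ⟨-, -, A, hA, hBA⟩ := mem_filter.1 hs
    obtain ⟨-, j, hj, hAj⟩ := mem_filter.1 hA
    have h1 : (⟨r * (g ⟨j, hj⟩).val + j, hlt g ⟨j, hj⟩⟩ : Fin n) ∈ B g :=
      mem_image_of_mem (fun j : Fin r => (⟨r * (g j).val + j.val, hlt g j⟩ : Fin n))
        (mem_univ (⟨j, hj⟩ : Fin r))
    exact hAj _ (hBA h1) (hmod g ⟨j, hj⟩)
  have hcount : (n / r) ^ r ≤
      (powersetCard r (univ : Finset (Fin n)) \ lowerShadow r 𝒜).card := by
    have h1 : (univ.image B).card ≤
        (powersetCard r (univ : Finset (Fin n)) \ lowerShadow r 𝒜).card :=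
      card_le_card (by
        intro x hx
        obtain ⟨g, -, rfl⟩ := mem_image.1 hx
        exact hBmem g)
    rw [card_image_of_injective _ hBinj, card_univ, Fintype.card_fun, Fintype.card_fin,
      Fintype.card_fin] at h1
    exact h1
  omega

end Pool.Agent.TH52.SH
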