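import Pool.Agent.TH52.SH.Exact

set_option autoImplicit false

/-!
# Small subfamilies with large covering number, and all `n` when `r ^ (t - s + 2) ≤ t`
-/

namespace Pool.Agent.TH52.SH

open Finset

/-- the size of the decision tree -/
def bnd (r : ℕ) : ℕ → ℕ
  | 0 => r
  | c + 1 => r + r * bnd r c

lemma bnd_le (r : ℕ) (hr : 2 ≤ r) : ∀ c, bnd r c + r ≤ r ^ (c + 2)
  | 0 => by
    have : r * 2 ≤ r * r := Nat.mul_le_mul_left r hr
    simp only [bnd]
    rw [show r ^ (0 + 2) = r * r by ring]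
    omega
  | c + 1 => by
    have h1 := bnd_le r hr c
    have h2 : r * (bnd r c + r) ≤ r * r ^ (c + 2) := Nat.mul_le_mul_left r h1
    have h3 : r * 2 ≤ r * r := Nat.mul_le_mul_left r hr
    simp only [bnd]
    rw [show r ^ (c + 1 + 2) = r * r ^ (c + 2) by ring]
    rw [Nat.mul_add] at h2
    omega

variable {α : Type*} [DecidableEq α]

theorem tree (H : Finset (Finset α)) (r : ℕ) (hH : ∀ h ∈ H, h.card ≤ r) : ∀ (c : ℕ) (D : Finset α),
    (∀ C : Finset α, D ⊆ C → C.card ≤ D.card + c → ∃ h ∈ H, Disjoint h C) →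
    ∃ W : Finset α, W.card ≤ bnd r c ∧
      ∀ C : Finset α, D ⊆ C → C.card ≤ D.card + c → ∃ h ∈ H, h ⊆ W ∧ Disjoint h C := by
  intro c
  induction c with
  | zero =>
    intro D hD
    obtain ⟨h, hh, hd⟩ := hD D (Subset.refl _) (by simp)
    refine ⟨h, hH h hh, ?_⟩
    intro C hC hCc
    have : C = D := (eq_of_subset_of_card_le hC (by simpa using hCc)).symm
    exact ⟨h, hh, Subset.refl _, this ▸ hd⟩
  | succ c ih =>
    intro D hD
    obtain ⟨h0, hh0, hd0⟩ := hD D (Subset.refl _) (by omega)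
    have hx : ∀ x ∈ h0, ∃ W : Finset α, W.card ≤ bnd r c ∧
        ∀ C : Finset α, insert x D ⊆ C → C.card ≤ (insert x D).card + c →
          ∃ h ∈ H, h ⊆ W ∧ Disjoint h C := by
      intro x hx
      have hxD : x ∉ D := Finset.disjoint_left.1 hd0 hx
      apply ih (insert x D)
      intro C hC hCc
      rw [card_insert_of_notMem hxD] at hCc
      exact hD C ((subset_insert x D).trans hC) (by omega)
    choose! g hg1 hg2 using hx
    refine ⟨h0 ∪ h0.biUnion g, ?_, ?_⟩
    · have h1 : (h0.biUnion g).card ≤ h0.card * bnd r c := card_biUnion_le_card_mul _ _ _ hg1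
      have h2 : h0.card * bnd r c ≤ r * bnd r c := Nat.mul_le_mul_right _ (hH h0 hh0)
      have h3 := card_union_le h0 (h0.biUnion g)
      have h4 := hH h0 hh0
      simp only [bnd]
      omega
    · intro C hC hCc
      by_cases hdis : Disjoint h0 C
      · exact ⟨h0, hh0, subset_union_left, hdis⟩
      · obtain ⟨x, hx0, hxC⟩ := Finset.not_disjoint_iff.1 hdis
        have hxD : x ∉ D := Finset.disjoint_left.1 hd0 hx0
        obtain ⟨h, hh, hhW, hhd⟩ := hg2 x hx0 C (insert_subset hxC hC)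
          (by rw [card_insert_of_notMem hxD]; omega)
        refine ⟨h, hh, ?_, hhd⟩
        intro y hy
        exact mem_union_right _ (mem_biUnion.2 ⟨x, hx0, hhW hy⟩)

theorem lower_tree {n r s t : ℕ} (hr : 2 ≤ r) (hst : s ≤ t) (htn : t ≤ n)
    (hbig : r ^ (t - s + 2) ≤ t) : (n - (t - s)).choose r ≤ f n r s t := by
  classical
  obtain ⟨𝒜, h1, h2, h3⟩ := exists_f (n := n) (r := r) (s := s) (t := t) hst
  rw [← h3]
  set H := powersetCard r (univ : Finset (Fin n)) \ lowerShadow r 𝒜 with hH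
  have hcard : ∀ h ∈ H, h.card = r := fun h hh => (mem_powersetCard.1 (mem_sdiff.1 hh).1).2
  have hex : ∃ C : Finset (Fin n), C.card ≤ t - s ∧ ∀ h ∈ H, ¬ Disjoint h C := by
    by_contra hno
    push Not at hno
    obtain ⟨W, hW, hW2⟩ := tree H r (fun h hh => (hcard h hh).le) (t - s) ∅
      (fun C _ hC => hno C (by simpa using hC))
    have hWt : W.card ≤ t := by
      have := bnd_le r hr (t - s)
      omega
    obtain ⟨T, hWT, hT⟩ := Finset.exists_superset_card_eq hWt (by simpa using htn)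
    obtain ⟨A, hA, hAT⟩ := h2 T hT
    obtain ⟨h, hh, hhW, hhd⟩ := hW2 (T \ A) (empty_subset _) (by
      rw [Finset.card_sdiff_of_subset hAT, hT, h1 A hA]
      simp)
    apply (mem_sdiff.1 hh).2
    refine mem_filter.2 ⟨mem_univ _, hcard h hh, A, hA, ?_⟩
    intro x hx
    by_contra hxA
    exact (Finset.disjoint_left.1 hhd hx) (mem_sdiff.2 ⟨hWT (hhW hx), hxA⟩)
  obtain ⟨C, hC, hCH⟩ := hex
  have h5 : n - (t - s) ≤ Cᶜ.card := by
    rw [card_compl, Fintype.card_fin]
    omega
  calc (n - (t - s)).choose r ≤ (Cᶜ.card).choose r := Nat.choose_le_choose r h5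
    _ = (powersetCard r Cᶜ).card := (card_powersetCard _ _).symm
    _ ≤ (lowerShadow r 𝒜).card := by
      apply card_le_card
      intro B hB
      obtain ⟨hBC, hBc⟩ := mem_powersetCard.1 hB
      by_contra hcon
      apply hCH B (mem_sdiff.2 ⟨mem_powersetCard.2 ⟨subset_univ _, hBc⟩, hcon⟩)
      rw [Finset.disjoint_left]
      intro x hx hxC
      exact (mem_compl.1 (hBC hx)) hxC

end Pool.Agent.TH52.SH
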