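import Pool.Agent.TH52.SH.Exact

set_option autoImplicit false

/-!
# Lower shadows of covering families: the asymptotic value for `r = 2`
-/

namespace Pool.Agent.TH52.SH

open Finset SimpleGraph Filter Topology

/-- every `t`-set contains an independent `s`-set -/
def PI {V : Type} (H : SimpleGraph V) (s t : ℕ) : Prop :=
  ∀ T : Finset V, T.card = t → ∃ A ⊆ T, A.card = s ∧ ∀ x ∈ A, ∀ y ∈ A, ¬ H.Adj x y

theorem PI.not_contained {V : Type} {H : SimpleGraph V} {s t k : ℕ} (hs : 1 ≤ s)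
    (ht : t ≤ (k + 1) * (s - 1)) (h : PI H s t) :
    ¬ (completeEquipartiteGraph (k + 1) (s - 1) ⊑ H) := by
  classical
  rintro ⟨φ⟩
  have hinj : Function.Injective (fun p : Fin (k + 1) × Fin (s - 1) => φ p) := φ.injective
  set T0 : Finset V := univ.image (fun p : Fin (k + 1) × Fin (s - 1) => φ p) with hT0
  have hT0c : T0.card = (k + 1) * (s - 1) := by
    rw [hT0, card_image_of_injective _ hinj, card_univ]
    simp
  obtain ⟨T, hT, hTc⟩ := Finset.exists_subset_card_eq (s := T0) (n := t) (by omega)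
  obtain ⟨A, hAT, hAc, hA⟩ := h T hTc
  set A' : Finset (Fin (k + 1) × Fin (s - 1)) := univ.filter fun p => φ p ∈ A with hA'
  have h1 : A'.image (fun p => φ p) = A := by
    ext x
    constructor
    · intro hx
      obtain ⟨p, hp, rfl⟩ := mem_image.1 hx
      exact (mem_filter.1 hp).2
    · intro hx
      obtain ⟨p, -, rfl⟩ := mem_image.1 (hT (hAT hx))
      exact mem_image.2 ⟨p, mem_filter.2 ⟨mem_univ _, hx⟩, rfl⟩
  have h2 : A'.card = s := by
    have h0 := card_image_of_injective A' hinj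
    rw [h1, hAc] at h0
    exact h0.symm
  have h3 : A'.card ≤ (univ : Finset (Fin (s - 1))).card := by
    apply Finset.card_le_card_of_injOn Prod.snd (fun _ _ => mem_coe.2 (mem_univ _))
    intro p hp q hq hpq
    by_contra hne
    have hfst : p.1 ≠ q.1 := fun h => hne (Prod.ext h hpq)
    have hadj : (completeEquipartiteGraph (k + 1) (s - 1)).Adj p q :=
      completeEquipartiteGraph_adj.2 hfst
    exact hA _ (mem_filter.1 (mem_coe.1 hp)).2 _ (mem_filter.1 (mem_coe.1 hq)).2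
      (φ.toHom.map_adj hadj)
  rw [h2, card_univ, Fintype.card_fin] at h3
  omega

theorem PI.induce {V : Type} {H : SimpleGraph V} {s t : ℕ} (h : PI H s t) (S : Set V) :
    PI (H.induce S) s t := by
  classical
  intro T hT
  obtain ⟨A, hAT, hAc, hA⟩ := h (T.map (Function.Embedding.subtype _)) (by rw [card_map, hT])
  refine ⟨T.filter (fun x => (x : V) ∈ A), filter_subset _ _, ?_, ?_⟩
  · rw [← hAc, ← card_map (Function.Embedding.subtype _)]
    congr 1
    ext x
    simp only [Finset.mem_map, mem_filter, Function.Embedding.coe_subtype]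
    constructor
    · rintro ⟨y, ⟨-, hy⟩, rfl⟩
      exact hy
    · intro hx
      obtain ⟨y, hy, rfl⟩ := Finset.mem_map.1 (hAT hx)
      exact ⟨y, ⟨hy, hx⟩, rfl⟩
  · intro x hx y hy hadj
    exact hA _ (mem_filter.1 hx).2 _ (mem_filter.1 hy).2 hadj

theorem edge_bound {s t k : ℕ} (hs : 1 ≤ s) (hk : 1 ≤ k) (ht : t ≤ (k + 1) * (s - 1)) {ε : ℝ}
    (hε : 0 < ε) :
    ∃ n0 : ℕ, ∀ (n : ℕ) (V : Type) [Fintype V] (H : SimpleGraph V), Fintype.card V = n →
      PI H s t →
      (H.edgeSet.ncard : ℝ) ≤ (n0 : ℝ) ^ 2 + (1 - 1 / k + ε) * (n * (n + 1) / 2) := by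
  classical
  obtain ⟨n0, hn0⟩ := eventually_atTop.1
    (eventually_completeEquipartiteGraph_isContained_of_minDegree hε k (s - 1))
  have hc : (0 : ℝ) ≤ 1 - 1 / k + ε := by
    have hk' : (1 : ℝ) ≤ k := by exact_mod_cast hk
    have : (1 : ℝ) / k ≤ 1 := by
      rw [div_le_one (by linarith)]
      exact hk'
    linarith
  refine ⟨n0, ?_⟩
  intro n
  induction n with
  | zero =>
    intro V _ H hV _
    have h1 : H.edgeSet.ncard = H.edgeFinset.card := by
      rw [edgeFinset, Set.ncard_eq_toFinset_card']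
    have h2 := H.card_edgeFinset_le_card_choose_two
    rw [hV] at h2
    have h3 : H.edgeFinset.card = 0 := by simpa using h2
    rw [h1, h3]
    simp
  | succ n ih =>
    intro V _ H hV hP
    have h1 : H.edgeSet.ncard = H.edgeFinset.card := by
      rw [edgeFinset, Set.ncard_eq_toFinset_card']
    rcases Nat.lt_or_ge (n + 1) n0 with hlt | hge
    · have h2 := H.card_edgeFinset_le_card_choose_two
      rw [hV] at h2
      have h3 : (n + 1).choose 2 ≤ n0 ^ 2 := by
        calc (n + 1).choose 2 ≤ (n + 1) ^ 2 := Nat.choose_le_pow _ _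
          _ ≤ n0 ^ 2 := Nat.pow_le_pow_left (by omega) 2
      have h4 : (H.edgeFinset.card : ℝ) ≤ (n0 : ℝ) ^ 2 := by exact_mod_cast h2.trans h3
      rw [h1]
      have h5 : (0 : ℝ) ≤ (1 - 1 / k + ε) * (((n + 1 : ℕ) : ℝ) * (((n + 1 : ℕ) : ℝ) + 1) / 2) := by
        positivity
      linarith
    · have hmin : (H.minDegree : ℝ) < (1 - 1 / k + ε) * ((n + 1 : ℕ) : ℝ) := by
        by_contra hcon
        push Not at hcon
        have h2 := hn0 (n + 1) hge (G := H.overFin hV)
        rw [← (H.overFinIso hV).minDegree_eq] at h2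
        have h3 := h2 hcon
        exact hP.not_contained hs ht
          (h3.trans ⟨(H.overFinIso hV).symm.toCopy⟩)
      have : Nonempty V := Fintype.card_pos_iff.1 (by omega)
      obtain ⟨v, hv⟩ := H.exists_minimal_degree_vertex
      have hcard : Fintype.card ({v}ᶜ : Set V) = n := by
        rw [Fintype.card_compl_set, hV]
        simp
      have h4 := ih ({v}ᶜ : Set V) (H.induce {v}ᶜ) hcard (hP.induce _)
      have h5 : (H.induce ({v}ᶜ : Set V)).edgeSet.ncard = H.edgeFinset.card - H.degree v := by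
        rw [← card_edgeFinset_deleteIncidenceSet, ← card_edgeFinset_induce_compl_singleton,
          edgeFinset, Set.ncard_eq_toFinset_card']
      have h6 : H.edgeFinset.card ≤ (H.edgeFinset.card - H.degree v) + H.degree v := by omega
      have h7 : (H.edgeFinset.card : ℝ) ≤
          ((H.induce ({v}ᶜ : Set V)).edgeSet.ncard : ℝ) + (H.degree v : ℝ) := by
        rw [h5]
        exact_mod_cast h6
      rw [hv] at hmin
      rw [h1]
      push_cast at hmin ⊢
      have h8 : (1 - 1 / (k : ℝ) + ε) * (((n : ℝ) + 1) * ((n : ℝ) + 1 + 1) / 2) =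
          (1 - 1 / (k : ℝ) + ε) * ((n : ℝ) * ((n : ℝ) + 1) / 2) +
            (1 - 1 / (k : ℝ) + ε) * ((n : ℝ) + 1) := by ring
      rw [h8]
      linarith

theorem two_lower {s t k : ℕ} (hs : 1 ≤ s) (hst : s ≤ t) (hk : 1 ≤ k)
    (ht : t ≤ (k + 1) * (s - 1)) {ε : ℝ} (hε : 0 < ε) :
    ∃ n0 : ℕ, ∀ n : ℕ, (n.choose 2 : ℝ) ≤
      (f n 2 s t : ℝ) + ((n0 : ℝ) ^ 2 + (1 - 1 / k + ε) * (n * (n + 1) / 2)) := by
  classical
  obtain ⟨n0, hn0⟩ := edge_bound hs hk ht hε
  refine ⟨n0, fun n => ?_⟩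
  obtain ⟨𝒜, h1, h2, h3⟩ := exists_f (n := n) (r := 2) (s := s) (t := t) hst
  let H : SimpleGraph (Fin n) :=
    { Adj := fun x y => x ≠ y ∧ ({x, y} : Finset (Fin n)) ∉ lowerShadow 2 𝒜
      symm := ⟨fun x y hxy => ⟨hxy.1.symm, by
        rw [Finset.pair_comm]
        exact hxy.2⟩⟩
      loopless := ⟨fun x hx => hx.1 rfl⟩ }
  have hP : PI H s t := by
    intro T hT
    obtain ⟨A, hA, hAT⟩ := h2 T hT
    refine ⟨A, hAT, h1 A hA, ?_⟩
    intro x hx y hy hadj
    apply hadj.2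
    refine mem_filter.2 ⟨mem_univ _, card_pair hadj.1, A, hA, ?_⟩
    intro z hz
    rcases mem_insert.1 hz with rfl | hz
    · exact hx
    · rw [mem_singleton.1 hz]
      exact hy
  have h4 := hn0 n (Fin n) H (Fintype.card_fin n) hP
  have h5 : (powersetCard 2 (univ : Finset (Fin n)) \ lowerShadow 2 𝒜).card ≤
      H.edgeSet.ncard := by
    have h6 : H.edgeSet.ncard = H.edgeFinset.card := by
      rw [edgeFinset, Set.ncard_eq_toFinset_card']
    rw [h6]
    refine (card_le_card ?_).trans (card_image_le (s := H.edgeFinset) (f := Sym2.toFinset))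
    intro B hB
    obtain ⟨hB1, hB2⟩ := mem_sdiff.1 hB
    obtain ⟨x, y, hxy, rfl⟩ := card_eq_two.1 (mem_powersetCard.1 hB1).2
    refine mem_image.2 ⟨s(x, y), ?_, Sym2.toFinset_mk_eq⟩
    rw [mem_edgeFinset, mem_edgeSet]
    exact ⟨hxy, hB2⟩
  have h6 := card_compl_shadow (r := 2) 𝒜
  have h7 : (n.choose 2 : ℝ) =
      ((powersetCard 2 (univ : Finset (Fin n)) \ lowerShadow 2 𝒜).card : ℝ) +
        ((lowerShadow 2 𝒜).card : ℝ) := by exact_mod_cast h6.symm
  have h8 : ((powersetCard 2 (univ : Finset (Fin n)) \ lowerShadow 2 𝒜).card : ℝ) ≤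
      (H.edgeSet.ncard : ℝ) := by exact_mod_cast h5
  rw [← h3]
  linarith

theorem two_upper {s t k : ℕ} (hk : 1 ≤ k) (ht : k * (s - 1) < t) (n : ℕ) :
    f n 2 s t ≤ k * (n / k + 1).choose 2 := by
  classical
  set 𝒜 : Finset (Finset (Fin n)) := (powersetCard s (univ : Finset (Fin n))).filter
    fun A => ∀ x ∈ A, ∀ y ∈ A, x.val % k = y.val % k with h𝒜
  have hcov : IsCovering t 𝒜 := by
    intro T hT
    obtain ⟨j, hj, hlt⟩ := Finset.exists_lt_card_fiber_of_mul_lt_card_of_maps_to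
      (s := T) (t := range k) (f := fun x : Fin n => x.val % k) (n := s - 1)
      (fun x _ => mem_range.2 (Nat.mod_lt _ (by omega))) (by rw [card_range, hT]; exact ht)
    obtain ⟨A, hA, hAc⟩ := Finset.exists_subset_card_eq
      (s := T.filter fun x => x.val % k = j) (n := s) (by omega)
    refine ⟨A, mem_filter.2 ⟨mem_powersetCard.2 ⟨subset_univ _, hAc⟩, ?_⟩,
      hA.trans (filter_subset _ _)⟩
    intro x hx y hy
    rw [(mem_filter.1 (hA hx)).2, (mem_filter.1 (hA hy)).2]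
  refine (f_le 𝒜 (fun A hA => (mem_powersetCard.1 (mem_filter.1 hA).1).2) hcov).trans ?_
  let P : ℕ → Finset (Fin n) := fun j => univ.filter fun x => x.val % k = j
  have hP : ∀ j ∈ range k, (P j).card ≤ n / k + 1 := by
    intro j hj
    rw [← card_range (n / k + 1)]
    apply Finset.card_le_card_of_injOn (fun x : Fin n => x.val / k)
    · intro x _
      exact mem_coe.2 (mem_range.2 (Nat.lt_succ_of_le (Nat.div_le_div_right x.isLt.le)))
    · intro x hx y hy hxy
      have h1 := (mem_filter.1 (mem_coe.1 hx)).2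
      have h2 := (mem_filter.1 (mem_coe.1 hy)).2
      have hxy' : x.val / k = y.val / k := hxy
      apply Fin.ext
      rw [← Nat.div_add_mod x.val k, ← Nat.div_add_mod y.val k, hxy', h1, h2]
  have hsub : lowerShadow 2 𝒜 ⊆ (range k).biUnion fun j => powersetCard 2 (P j) := by
    intro B hB
    obtain ⟨-, hBc, A, hA, hBA⟩ := mem_filter.1 hB
    obtain ⟨x, y, hxy, rfl⟩ := card_eq_two.1 hBc
    have hx : x ∈ A := hBA (by simp)
    have hy : y ∈ A := hBA (by simp)
    have h1 := (mem_filter.1 hA).2 x hx y hy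
    refine mem_biUnion.2 ⟨x.val % k, mem_range.2 (Nat.mod_lt _ (by omega)),
      mem_powersetCard.2 ⟨?_, hBc⟩⟩
    intro z hz
    refine mem_filter.2 ⟨mem_univ _, ?_⟩
    rcases mem_insert.1 hz with rfl | hz
    · rfl
    · rw [mem_singleton.1 hz, h1]
  calc (lowerShadow 2 𝒜).card ≤ ((range k).biUnion fun j => powersetCard 2 (P j)).card :=
        card_le_card hsub
    _ ≤ (range k).card * (n / k + 1).choose 2 := by
        apply card_biUnion_le_card_mul
        intro j hj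
        rw [card_powersetCard]
        exact Nat.choose_le_choose 2 (hP j hj)
    _ = k * (n / k + 1).choose 2 := by rw [card_range]

theorem two_limit_aux {s t k : ℕ} (hs : 1 ≤ s) (hst : s ≤ t) (hk : 1 ≤ k)
    (ht1 : k * (s - 1) < t) (ht2 : t ≤ (k + 1) * (s - 1)) :
    Tendsto (fun n : ℕ => (f n 2 s t : ℝ) / (n.choose 2 : ℝ)) atTop (𝓝 (1 / (k : ℝ))) := by
  have hk' : (1 : ℝ) ≤ k := by exact_mod_cast hk
  have hk0 : (0 : ℝ) < k := by linarith
  refine tendsto_order.2 ⟨fun a ha => ?_, fun a ha => ?_⟩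
  · set ε : ℝ := (1 / (k : ℝ) - a) / 2 with hε
    have hεpos : 0 < ε := by rw [hε]; linarith
    obtain ⟨n0, hn0⟩ := two_lower hs hst hk ht2 hεpos
    set K : ℝ := |1 - a + (1 - 1 / k + ε)| + 2 * (n0 : ℝ) ^ 2 + 1 with hK
    have hev : ∀ᶠ n : ℕ in atTop, K < ε * n :=
      (Tendsto.const_mul_atTop hεpos tendsto_natCast_atTop_atTop).eventually_gt_atTop K
    filter_upwards [hev, eventually_ge_atTop 2] with n h1 h2
    have hn2 : (2 : ℝ) ≤ n := by exact_mod_cast h2
    have h3 := hn0 n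
    rw [Nat.cast_choose_two] at h3 ⊢
    have hpos : (0 : ℝ) < (n : ℝ) * ((n : ℝ) - 1) / 2 := by
      have : (0 : ℝ) < (n : ℝ) - 1 := by linarith
      positivity
    rw [lt_div_iff₀ hpos]
    have h4 : |1 - a + (1 - 1 / k + ε)| + 2 * (n0 : ℝ) ^ 2 + 1 < ε * n := h1
    have h5 : 1 - a + (1 - 1 / k + ε) ≤ |1 - a + (1 - 1 / k + ε)| := le_abs_self _
    have h6 : (n : ℝ) * (|1 - a + (1 - 1 / k + ε)| + 2 * (n0 : ℝ) ^ 2 + 1) < n * (ε * n) :=
      mul_lt_mul_of_pos_left h4 (by linarith)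
    have h7 : (n : ℝ) * (1 - a + (1 - 1 / k + ε)) ≤ n * |1 - a + (1 - 1 / k + ε)| :=
      mul_le_mul_of_nonneg_left h5 (by linarith)
    have h8 : (2 : ℝ) * (n0 : ℝ) ^ 2 ≤ n * (2 * (n0 : ℝ) ^ 2) := by
      have : (0 : ℝ) ≤ 2 * (n0 : ℝ) ^ 2 := by positivity
      nlinarith
    have h9 : a = 1 / (k : ℝ) - 2 * ε := by rw [hε]; ring
    have h10 : (n : ℝ) * (1 - a + (1 - 1 / k + ε)) + 2 * (n0 : ℝ) ^ 2 < ε * n * n := by
      nlinarith
    have h11 : a * ((n : ℝ) * ((n : ℝ) - 1) / 2) = a * n * n / 2 - a * n / 2 := by ring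
    have h12 : (1 - 1 / (k : ℝ) + ε) * ((n : ℝ) * ((n : ℝ) + 1) / 2) =
        (1 - 1 / (k : ℝ) + ε) * n * n / 2 + (1 - 1 / (k : ℝ) + ε) * n / 2 := by ring
    have h13 : (n : ℝ) * ((n : ℝ) - 1) / 2 = n * n / 2 - n / 2 := by ring
    have h14 : a * n * n = (1 / (k : ℝ)) * n * n - 2 * ε * n * n := by
      rw [h9]; ring
    rw [h12, h13] at h3
    rw [h11]
    nlinarith
  · have hev : ∀ᶠ n : ℕ in atTop, 1 + a < (a - 1 / k) * n :=
      (Tendsto.const_mul_atTop (by linarith) tendsto_natCast_atTop_atTop).eventually_gt_atTop _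
    filter_upwards [hev, eventually_ge_atTop 2] with n h1 h2
    have hn2 : (2 : ℝ) ≤ n := by exact_mod_cast h2
    have h3 : (f n 2 s t : ℝ) ≤ (k : ℝ) * (((n / k + 1 : ℕ) : ℝ) * (((n / k + 1 : ℕ) : ℝ) - 1) / 2) := by
      have := two_upper hk ht1 n
      rw [← Nat.cast_choose_two]
      exact_mod_cast this
    push_cast at h3
    have h4 : ((n / k : ℕ) : ℝ) ≤ (n : ℝ) / k := Nat.cast_div_le
    set m : ℝ := ((n / k : ℕ) : ℝ) with hm
    have hm0 : 0 ≤ m := by rw [hm]; positivity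
    have h5 : (m + 1) * (m + 1 - 1) ≤ ((n : ℝ) / k + 1) * ((n : ℝ) / k) := by
      have : (m + 1) * (m + 1 - 1) = (m + 1) * m := by ring
      rw [this]
      apply mul_le_mul (by linarith) h4 hm0 (by positivity)
    have h6 : (f n 2 s t : ℝ) ≤ (k : ℝ) * (((n : ℝ) / k + 1) * ((n : ℝ) / k) / 2) := by
      refine h3.trans ?_
      apply mul_le_mul_of_nonneg_left _ hk0.le
      linarith
    have h7 : (k : ℝ) * (((n : ℝ) / k + 1) * ((n : ℝ) / k) / 2) = n * (n * (1 / k) + 1) / 2 := by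
      field_simp
    rw [h7] at h6
    rw [Nat.cast_choose_two]
    have hpos : (0 : ℝ) < (n : ℝ) * ((n : ℝ) - 1) / 2 := by
      have : (0 : ℝ) < (n : ℝ) - 1 := by linarith
      positivity
    rw [div_lt_iff₀ hpos]
    have h8 : (n : ℝ) * (1 / k) + 1 < a * (n - 1) := by
      have : (a - 1 / k) * (n : ℝ) = a * n - n * (1 / k) := by ring
      linarith
    have h9 : (n : ℝ) * (n * (1 / k) + 1) < n * (a * (n - 1)) :=
      mul_lt_mul_of_pos_left h8 (by linarith)
    have h10 : a * ((n : ℝ) * ((n : ℝ) - 1) / 2) = n * (a * (n - 1)) / 2 := by ring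
    rw [h10]
    linarith

/-- the limit for `r = 2`: `k = ⌊(t-1)/(s-1)⌋`. -/
theorem two_limit {s t : ℕ} (hs : 2 ≤ s) (hst : s < t) :
    Tendsto (fun n : ℕ => (f n 2 s t : ℝ) / (n.choose 2 : ℝ)) atTop
      (𝓝 (1 / (((t - 1) / (s - 1) : ℕ) : ℝ))) := by
  have h1 : 0 < s - 1 := by omega
  have hk : 1 ≤ (t - 1) / (s - 1) := (Nat.one_le_div_iff h1).2 (by omega)
  refine two_limit_aux (by omega) hst.le hk ?_ ?_
  · have := Nat.div_mul_le_self (t - 1) (s - 1)
    omega
  · have h2 := Nat.lt_mul_div_succ (t - 1) h1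
    rw [Nat.mul_comm] at h2
    omega

end Pool.Agent.TH52.SH
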