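import Pool.Agent.TH52.SH.Exact
import Pool.Agent.TH52.SH.Two
import Pool.Agent.TH52.SH.Ekr
import Pool.Agent.TH52.SH.Crit
import Pool.Agent.TH52.SH.Tree

set_option autoImplicit false

/-!
# Lower shadows of covering families: collected results
-/

namespace Pool.Agent.TH52.SH

open Filter Topology

theorem exact_all {n r s t : ℕ} (hr : 1 ≤ r) (hrs : r < s) (hst : s < t) (htn : t < n)
    (hreg : r * (t - s + 1) ≤ t)
    (hn : r ≤ 2 ∨ t = s + 1 ∨ r ^ (t - s + 2) ≤ t ∨ r ^ 3 * (t - s) ^ 2 + (t - s) ≤ n) :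
    f n r s t = (n - (t - s)).choose r := by
  apply le_antisymm (upper hst.le htn.le)
  by_cases h1 : r = 1
  · subst h1
    rw [Nat.choose_one_right]
    exact lower_one (by omega) hst htn
  have h2 : 2 ≤ r := by omega
  rcases hn with h | h | h | h
  · have : r = 2 := by omega
    subst this
    exact lower_graph (by omega) hst.le htn.le hreg
  · subst h
    have e : s + 1 - s = 1 := by omega
    rw [e] at hreg ⊢
    exact lower_ekr hr (by omega) htn hreg
  · exact lower_tree h2 hst.le htn.le h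
  · exact lower_two h2 (by omega) hst htn hreg h

theorem blocks_iff {s k : ℕ} (hs : 2 < s) (hk : 2 ≤ k) :
    Tendsto (fun n : ℕ => (f n 2 s (k * s) : ℝ) / (n.choose 2 : ℝ)) atTop (𝓝 (1 / (k : ℝ))) ↔
      k < s := by
  have hst : s < k * s := by nlinarith
  have hlim := two_limit (by omega : 2 ≤ s) hst
  have hq : (k * s - 1) / (s - 1) = (k - 1) / (s - 1) + k := by
    have e : k * s - 1 = (k - 1) + k * (s - 1) := by
      obtain ⟨s', rfl⟩ : ∃ s', s = s' + 1 := ⟨s - 1, by omega⟩
      rw [Nat.add_sub_cancel, Nat.mul_add, Nat.mul_one]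
      omega
    rw [e, Nat.add_mul_div_right _ _ (by omega)]
  rw [hq] at hlim
  constructor
  · intro h
    have h1 := tendsto_nhds_unique h hlim
    have h2 : (k : ℝ) = (((k - 1) / (s - 1) + k : ℕ) : ℝ) := by
      have h3 : ((k : ℝ))⁻¹ = ((((k - 1) / (s - 1) + k : ℕ) : ℝ))⁻¹ := by
        simpa [one_div] using h1
      exact inv_injective h3
    have h4 : k = (k - 1) / (s - 1) + k := by exact_mod_cast h2
    have h5 : (k - 1) / (s - 1) = 0 := by omega
    rcases (Nat.div_eq_zero_iff).1 h5 with h6 | h6 <;> omega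
  · intro h
    have h5 : (k - 1) / (s - 1) = 0 := Nat.div_eq_of_lt (by omega)
    rw [h5, Nat.zero_add] at hlim
    exact hlim

end Pool.Agent.TH52.SH
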